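import Mathlib

namespace Pool.Agent.Results.MP_93e4b7_co.Collision

open Finset Matrix

section
variable {r : ℕ} (μ : (Fin r → ZMod 2) → ℕ)

/-- the Laplacian of the Cayley multigraph with μ u edges from w to w + u, for u ≠ 0 -/
def L : Matrix (Fin r → ZMod 2) (Fin r → ZMod 2) ℤ :=
  Matrix.of fun w w' => if w = w' then ∑ u ∈ univ.filter (· ≠ 0), (μ u : ℤ) else -(μ (w' - w) : ℤ)

/-- the torsion subgroups of A / N and A / N' are isomorphic -/
def TorsIso {A : Type} [AddCommGroup A] (N N' : Submodule ℤ A) : Prop :=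
  Nonempty (Submodule.torsion ℤ (A ⧸ N) ≃+ Submodule.torsion ℤ (A ⧸ N'))

/-- isomorphic sandpile groups (torsion parts of the cokernels of the Laplacians) -/
def SameK (ν : (Fin r → ZMod 2) → ℕ) : Prop :=
  TorsIso (LinearMap.range (L μ).mulVecLin) (LinearMap.range (L ν).mulVecLin)

/-- the support of μ spans -/
def Spans : Prop := Submodule.span (ZMod 2) {u | u ≠ 0 ∧ μ u ≠ 0} = ⊤
end

abbrev V := Fin 2 → ZMod 2

def ix (w : V) : Fin 4 := Fin.ofNat 4 ((w 0).val + 2 * (w 1).val)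

def m (a b : ℕ) (w : V) : ℕ := ![0, a, b, 0] (ix w)

def P : Matrix V V ℤ := !![1, 0, 0, 0; 109, 7, -8, 0; 16, 1, -1, 0; -125, -7, 10, 1].submatrix ix ix
def P' : Matrix V V ℤ := !![1, 0, 0, 0; -19, -1, 8, 0; -3, -1, 7, 0; 22, 3, -14, 1].submatrix ix ix
def Q : Matrix V V ℤ := !![-3, 1, 1, 0; 7, -2, -6, 0; -6, 2, 3, 0; -102, 34, 66, 1].submatrix ix ix
def Q' : Matrix V V ℤ := !![-6, 1, 4, 0; -15, 3, 11, 0; -2, 0, 1, 0; 30, 0, -32, 1].submatrix ix ix

lemma sp (a b : ℕ) (ha : a ≠ 0) (hb : b ≠ 0) :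
    Submodule.span (ZMod 2) {u | u ≠ 0 ∧ m a b u ≠ 0} = ⊤ := by
  refine eq_top_iff.mpr fun x hx => ?_
  have : x = x 0 • ![1, 0] + x 1 • ![0, 1] := by clear hx; revert x; decide
  rw [this]
  exact add_mem (Submodule.smul_mem _ _ (Submodule.subset_span ⟨by decide, ha⟩))
    (Submodule.smul_mem _ _ (Submodule.subset_span ⟨by decide, hb⟩))

/-- Two inequivalent multiplicity functions with isomorphic sandpile groups. -/
theorem result : ∃ μ ν : (Fin 2 → ZMod 2) → ℕ,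
    Spans μ ∧ Spans ν ∧ SameK μ ν ∧
    ¬ ∃ T : (Fin 2 → ZMod 2) ≃ₗ[ZMod 2] (Fin 2 → ZMod 2), ∀ u ≠ 0, ν (T u) = μ u := by
  refine ⟨m 2 3, m 1 5, sp _ _ (by decide) (by decide), sp _ _ (by decide) (by decide), ?_, ?_⟩
  · have h1 : P * P' = 1 := by decide
    have h2 : P' * P = 1 := by decide
    have h3 : P * L (m 2 3) = L (m 1 5) * Q := by decide
    have h4 : L (m 1 5) = P * (L (m 2 3) * Q') := by decide
    let e := Submodule.Quotient.equiv (LinearMap.range (L (m 2 3)).mulVecLin)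
      (LinearMap.range (L (m 1 5)).mulVecLin) (toLin'OfInv h2 h1) (by
        apply le_antisymm
        · rintro _ ⟨_, ⟨x, rfl⟩, rfl⟩
          exact ⟨Q.mulVec x, by simp [← h3, toLin'OfInv]⟩
        · rintro _ ⟨x, rfl⟩
          exact ⟨_, ⟨Q'.mulVec x, rfl⟩, by simp [← h4, toLin'OfInv]⟩)
    refine ⟨(e.ofSubmodules _ _ (le_antisymm ?_ ?_)).toAddEquiv⟩
    · rintro _ ⟨x, ⟨a, ha⟩, rfl⟩
      exact ⟨a, by rw [Submonoid.smul_def] at ha ⊢; simp [← map_smul, ha]⟩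
    · rintro x ⟨a, ha⟩
      exact ⟨e.symm x, ⟨a, by rw [Submonoid.smul_def] at ha ⊢; simp [← map_smul, ha]⟩, by simp⟩
  · rintro ⟨T, h⟩
    have : ∀ w, m 1 5 w ≠ 2 := by decide
    exact this _ (h ![1, 0] (by decide))

end Pool.Agent.Results.MP_93e4b7_co.Collision
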